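import Pool.Agent.W792.WA.Stm5

/-!
# Project WA, part LEV0: the first level
-/

set_option autoImplicit false

namespace Pool.Agent.W864.WA

open MeasureTheory Filter Pool.Agent.W792.LL Pool.Agent.W792.WA
open scoped Topology

noncomputable section

lemma nsq (y : ℂ) : Complex.normSq (y + Complex.I) =
    Complex.normSq (y - Complex.I) + 4 * y.im := by
  simp [Complex.normSq_apply]
  ring

lemma ysub_ne {y : ℂ} (hy : y.im < 1) : y - Complex.I ≠ 0 := by
  intro h
  have := congrArg Complex.im h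
  simp at this
  linarith

lemma cay_bound {y : ℂ} {g D2 : ℝ} (hg : 0 ≤ g) (hy : y.im ≤ -g) (hD : ‖y - Complex.I‖ ≤ D2) :
    ‖(y + Complex.I) / (y - Complex.I)‖ ^ 2 ≤ 1 - 4 * g / D2 ^ 2 := by
  have hne : y - Complex.I ≠ 0 := ysub_ne (by linarith)
  have hN : 0 < Complex.normSq (y - Complex.I) := Complex.normSq_pos.2 hne
  have hND : Complex.normSq (y - Complex.I) ≤ D2 ^ 2 := by
    rw [Complex.normSq_eq_norm_sq]
    exact pow_le_pow_left₀ (norm_nonneg _) hD 2
  rw [← Complex.normSq_eq_norm_sq, map_div₀, nsq, add_div, div_self hN.ne']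
  have h1 : 4 * g / D2 ^ 2 ≤ 4 * g / Complex.normSq (y - Complex.I) := by gcongr
  have h2 : 4 * y.im / Complex.normSq (y - Complex.I) ≤ -(4 * g / Complex.normSq (y - Complex.I)) := by
    rw [← neg_div]
    gcongr
    linarith
  linarith

lemma cay_le_one {y : ℂ} (hy : y.im ≤ 0) : ‖(y + Complex.I) / (y - Complex.I)‖ ≤ 1 := by
  have h := cay_bound (y := y) (g := 0) (D2 := ‖y - Complex.I‖) le_rfl (by linarith) le_rfl
  simp only [mul_zero, zero_div, sub_zero] at h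
  have h0 := norm_nonneg ((y + Complex.I) / (y - Complex.I))
  nlinarith

lemma meas_cayx (x : ℂ) : Measurable (cayx x) := by
  unfold cayx
  fun_prop

lemma meas_w1 (x : ℂ) (γ : ℝ) :
    Measurable (fun a : ℝ => cayx (x + (a : ℂ) - γ * Complex.I) 0) := by
  unfold cayx
  fun_prop

/-- bound for `w / (1 - w s)` -/
lemma frac_le {w s : ℂ} {η : ℝ} (hη : 0 < η) (hw : ‖w‖ ≤ 1) (hs : ‖s‖ ≤ 1 - η) :
    ‖w / (1 - w * s)‖ ≤ 1 / η := by
  have h1 : η ≤ ‖1 - w * s‖ := by
    have h2 : ‖w * s‖ ≤ 1 - η := by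
      rw [norm_mul]
      calc ‖w‖ * ‖s‖ ≤ 1 * ‖s‖ := by gcongr
        _ ≤ 1 - η := by linarith
    have h3 := norm_sub_norm_le (1 : ℂ) (w * s)
    rw [norm_one] at h3
    linarith
  rw [norm_div]
  calc ‖w‖ / ‖1 - w * s‖ ≤ 1 / ‖1 - w * s‖ := by gcongr
    _ ≤ 1 / η := by gcongr

/-- comparison of the effective contractions -/
lemma comp_U {B BC s : ℂ} {c q0 : ℝ} (hs : ‖s‖ ≤ 1) (h1 : 1 + s * B ≠ 0) (h2 : 1 + s * BC ≠ 0)
    (hU : ‖B / (1 + s * B)‖ ≤ 1) (hUC : ‖BC / (1 + s * BC)‖ ≤ q0) (hq0 : q0 ≤ 1)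
    (hB : ‖B - BC‖ ≤ c) : ‖B / (1 + s * B)‖ ≤ q0 + 4 * c := by
  have key : ∀ b : ℂ, 1 + s * b ≠ 0 → ‖b / (1 + s * b)‖ ≤ 1 → 1 / 2 ≤ ‖1 + s * b‖ := by
    intro b hb hb1
    have hpos : 0 < ‖1 + s * b‖ := norm_pos_iff.2 hb
    rw [norm_div, div_le_one hpos] at hb1
    have h3 : ‖(1 : ℂ)‖ ≤ ‖1 + s * b‖ + ‖s * b‖ := by
      calc ‖(1 : ℂ)‖ = ‖(1 + s * b) - s * b‖ := by ring_nf
        _ ≤ _ := norm_sub_le _ _
    rw [norm_one, norm_mul] at h3
    have h4 : ‖s‖ * ‖b‖ ≤ 1 * ‖b‖ := by gcongr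
    linarith
  have k1 := key B h1 hU
  have k2 := key BC h2 (hUC.trans hq0)
  have e : B / (1 + s * B) = BC / (1 + s * BC) + (B - BC) / ((1 + s * B) * (1 + s * BC)) := by
    rw [div_add_div _ _ h2 (mul_ne_zero h1 h2),
      div_eq_div_iff h1 (mul_ne_zero h2 (mul_ne_zero h1 h2))]
    ring
  rw [e]
  refine (norm_add_le _ _).trans ?_
  have h5 : ‖(B - BC) / ((1 + s * B) * (1 + s * BC))‖ ≤ 4 * c := by
    rw [norm_div, norm_mul]
    have h6 : 1 / 4 ≤ ‖1 + s * B‖ * ‖1 + s * BC‖ := by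
      calc (1 : ℝ) / 4 = 1 / 2 * (1 / 2) := by norm_num
        _ ≤ _ := by gcongr
    rw [div_le_iff₀ (by linarith)]
    have h7 : 0 ≤ c := (norm_nonneg _).trans hB
    nlinarith
  linarith

theorem main : Pool.Agent.W792.WA.S_TAN → Pool.Agent.W792.WA.S_CAUI → Pool.Agent.W792.WA.S_SC1 →
    Pool.Agent.W792.WA.S_LEV0 := by
  intro hT hC hS p κ D ε hp1 hp2 hκ hκ1 hε
  set D2 : ℝ := max D 0 + 3 with hD2def
  have hD2 : 3 ≤ D2 := by
    have := le_max_right D 0
    linarith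
  have hD2pos : 0 < D2 := by linarith
  have hp1' : 0 < p - 1 := by linarith
  have hp2' : 0 < 2 - p := by linarith
  set K0 : ℝ := 2 / (p - 1) * (κ / (64 * D2 ^ 4)) ^ (1 - p) with hK0def
  have hK0 : 0 < K0 := by positivity
  obtain ⟨γ, hγ0, hγ1, hγ⟩ : ∃ γ : ℝ, 0 < γ ∧ γ ≤ 1 ∧ γ ^ (2 - p) * K0 ≤ ε := by
    have hpos : 0 < (ε / K0) ^ (1 / (2 - p)) := by positivity
    refine ⟨min 1 ((ε / K0) ^ (1 / (2 - p))), lt_min one_pos hpos, min_le_left _ _, ?_⟩
    have h1 : (min 1 ((ε / K0) ^ (1 / (2 - p)))) ^ (2 - p) ≤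
        ((ε / K0) ^ (1 / (2 - p))) ^ (2 - p) :=
      Real.rpow_le_rpow (lt_min one_pos hpos).le (min_le_right _ _) hp2'.le
    rw [← Real.rpow_mul (by positivity), one_div, inv_mul_cancel₀ hp2'.ne', Real.rpow_one] at h1
    calc _ ≤ ε / K0 * K0 := by
          have := hK0.le
          rw [one_div]
          gcongr
      _ = ε := by field_simp
  have hu : 4 * γ / D2 ^ 2 ≤ 4 / 9 := by
    rw [div_le_div_iff₀ (by positivity) (by norm_num)]
    nlinarith
  have hu0 : 0 < 4 * γ / D2 ^ 2 := by positivity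
  obtain ⟨q0, hq00, hq0sq⟩ : ∃ q0 : ℝ, 0 ≤ q0 ∧ q0 ^ 2 = 1 - 4 * γ / D2 ^ 2 :=
    ⟨Real.sqrt (1 - 4 * γ / D2 ^ 2), Real.sqrt_nonneg _, Real.sq_sqrt (by linarith)⟩
  have hq01 : q0 < 1 := by nlinarith
  have hq0g : 2 * γ / D2 ^ 2 ≤ 1 - q0 := by
    have h1 : 4 * γ / D2 ^ 2 = 2 * (2 * γ / D2 ^ 2) := by ring
    rw [h1] at hq0sq
    nlinarith
  obtain ⟨q, hq⟩ : ∃ q : ℝ, q = (1 + q0) / 2 := ⟨_, rfl⟩
  have hq_lt : q < 1 := by linarith
  have hq_ge : 0 ≤ q := by linarith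
  obtain ⟨η, hη⟩ : ∃ η : ℝ, η = (1 - q ^ 2) * κ / 8 := ⟨_, rfl⟩
  have hq2 : γ / D2 ^ 2 ≤ 1 - q ^ 2 := by
    have h1 : 2 * γ / D2 ^ 2 = 2 * (γ / D2 ^ 2) := by ring
    rw [h1] at hq0g
    nlinarith
  have hgD : 0 < γ / D2 ^ 2 := by positivity
  have hη0 : 0 < η := by
    rw [hη]
    have : 0 < 1 - q ^ 2 := by linarith
    positivity
  have hηge : γ / D2 ^ 2 * κ / 8 ≤ η := by
    rw [hη]
    gcongr
  have hη1 : η ≤ 1 / 8 := by
    rw [hη]
    have h1 : (1 - q ^ 2) * κ ≤ 1 * 1 := by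
      have := sq_nonneg q
      gcongr
      · linarith
    linarith
  obtain ⟨τ, hτ⟩ : ∃ τ : ℝ, τ = η * (1 - q0) / 16 := ⟨_, rfl⟩
  have hτ0 : 0 < τ := by
    rw [hτ]
    have : 0 < 1 - q0 := by linarith
    positivity
  have hτ1 : τ ≤ 1 / 2 := by
    rw [hτ]
    nlinarith
  have hτge : γ ^ 2 * (κ / (64 * D2 ^ 4)) ≤ τ := by
    have h1 : γ ^ 2 * (κ / (64 * D2 ^ 4)) = (γ / D2 ^ 2 * κ / 8) * (2 * γ / D2 ^ 2) / 16 := by
      field_simp
      ring
    rw [h1, hτ]
    gcongr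
  obtain ⟨ψ, R, hlv, hR, happ, hLp⟩ := hT γ τ hγ0 hτ0 hτ1
  refine ⟨ψ, R, η, q, hlv, hR, hη0, by linarith, hq_ge, hq_lt, hη.le, ?_, ?_⟩
  · refine (hLp p hp1 hp2).trans ?_
    have h1 : τ ^ (1 - p) ≤ (γ ^ 2 * (κ / (64 * D2 ^ 4))) ^ (1 - p) :=
      Real.rpow_le_rpow_of_nonpos (by positivity) hτge (by linarith)
    have h2 : (γ ^ 2 * (κ / (64 * D2 ^ 4))) ^ (1 - p) =
        γ ^ (2 * (1 - p)) * (κ / (64 * D2 ^ 4)) ^ (1 - p) := by
      rw [Real.mul_rpow (by positivity) (by positivity), Real.rpow_mul hγ0.le]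
      norm_num
    have h3 : γ ^ p * γ ^ (2 * (1 - p)) = γ ^ (2 - p) := by
      rw [← Real.rpow_add hγ0]
      congr 1
      ring
    calc 2 * γ ^ p * τ ^ (1 - p) / (p - 1)
        ≤ 2 * γ ^ p * ((γ ^ 2 * (κ / (64 * D2 ^ 4))) ^ (1 - p)) / (p - 1) := by gcongr
      _ = γ ^ (2 - p) * K0 := by
          rw [h2, ← h3, hK0def]
          ring
      _ ≤ ε := hγ
  · intro ρ' hρ' hsupp x s hx hxim hs
    have hpv : IsProbabilityMeasure (volume.restrict (Set.Ioc (0 : ℝ) 1)) := ⟨by simp⟩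
    have hmeas : Measurable (fun φ : ℝ => R * ψ (φ : UnitAddCircle)) := by
      have : Continuous (fun φ : ℝ => R * ψ (φ : UnitAddCircle)) := by
        have h1 : Continuous (fun φ : ℝ => (φ : UnitAddCircle)) := AddCircle.continuous_mk' 1
        exact continuous_const.mul (ψ.continuous.comp h1)
      exact this.measurable
    have hlev : IsProbabilityMeasure (lev ψ R) := by
      unfold lev
      exact Measure.isProbabilityMeasure_map hmeas.aemeasurable
    have hs1 : ‖s‖ < 1 := by linarith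
    have hDx : D = max D 0 := by
      rw [max_eq_left]
      exact (norm_nonneg x).trans hx
    set f : ℝ → ℂ := fun a => cayx x a / (1 - cayx x a * s) with hf
    have hfm : Measurable f := by
      have := meas_cayx x
      rw [hf]
      fun_prop
    have hcay1 : ∀ a, ‖cayx x a‖ ≤ 1 := by
      intro a
      unfold cayx
      exact cay_le_one (by simp; linarith)
    have hfb : ∀ a, ‖f a‖ ≤ 1 / η := fun a => frac_le hη0 (hcay1 a) hs
    set w1 : ℝ → ℂ := fun a => cayx (x + (a : ℂ) - γ * Complex.I) 0 with hw1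
    have hw1m : Measurable w1 := meas_w1 x γ
    have hw1b : ∀ᵐ a ∂ρ', ‖w1 a‖ ≤ q0 := by
      have h1 : ∀ᵐ a ∂ρ', a ∈ Set.Icc (-1 : ℝ) 1 := by
        rw [ae_iff]
        exact hsupp
      filter_upwards [h1] with a ha
      have h2 : ‖(x + (a : ℂ) - γ * Complex.I) - Complex.I‖ ≤ D2 := by
        have e1 : ‖(a : ℂ)‖ ≤ 1 := by
          rw [Complex.norm_real, Real.norm_eq_abs, abs_le]
          exact ⟨ha.1, ha.2⟩
        have e2 : ‖(γ : ℂ) * Complex.I‖ ≤ 1 := by
          rw [norm_mul, Complex.norm_I, mul_one, Complex.norm_real, Real.norm_eq_abs,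
            abs_of_pos hγ0]
          exact hγ1
        calc ‖(x + (a : ℂ) - γ * Complex.I) - Complex.I‖
            ≤ ‖x + (a : ℂ) - γ * Complex.I‖ + ‖Complex.I‖ := norm_sub_le _ _
          _ ≤ ‖x + (a : ℂ)‖ + ‖(γ : ℂ) * Complex.I‖ + ‖Complex.I‖ := by
              gcongr
              exact norm_sub_le _ _
          _ ≤ ‖x‖ + ‖(a : ℂ)‖ + ‖(γ : ℂ) * Complex.I‖ + ‖Complex.I‖ := by
              gcongr
              exact norm_add_le _ _
          _ ≤ D2 := by
              rw [Complex.norm_I]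
              linarith
      have h3 := cay_bound (y := x + (a : ℂ) - γ * Complex.I) (g := γ) (D2 := D2) hγ0.le
        (by simp; linarith) h2
      rw [← hq0sq] at h3
      have h4 : w1 a = ((x + (a : ℂ) - γ * Complex.I) + Complex.I) /
          ((x + (a : ℂ) - γ * Complex.I) - Complex.I) := by
        rw [hw1]
        simp [cayx]
      rw [h4]
      exact (pow_le_pow_iff_left₀ (norm_nonneg _) hq00 two_ne_zero).1 h3
    obtain ⟨-, hC1, hC2, -, -⟩ := hS ρ' w1 q0 s hw1m hq00 hq01.le hw1b hs1.le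
      (by nlinarith [norm_nonneg s])
    have hρ : IsProbabilityMeasure ((lev ψ R).conv ρ') := inferInstance
    obtain ⟨-, hB1, hB2, -, -⟩ := hS ((lev ψ R).conv ρ') (cayx x) 1 s (meas_cayx x) zero_le_one
      le_rfl (Eventually.of_forall hcay1) hs1.le (by linarith)
    have hBconv : Bs ((lev ψ R).conv ρ') (cayx x) s = ∫ a', ∫ a, f (a' + a) ∂(lev ψ R) ∂ρ' := by
      unfold Bs
      rw [Measure.conv_comm]
      refine MeasureTheory.integral_conv ?_
      exact Integrable.of_bound hfm.aestronglyMeasurable (1 / η) (Eventually.of_forall hfb)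
    have hinner : ∀ a' : ℝ, ‖(∫ a, f (a' + a) ∂(lev ψ R)) - w1 a' / (1 - w1 a' * s)‖ ≤
        2 * τ * (1 / η) := by
      intro a'
      have h1 := happ (fun a => f (a' + a)) (1 / η) (by fun_prop) (fun a => hfb _)
      have h2 := hC γ (x + a') s hγ0 (by simp; exact hxim) hs1
      have h3 : ∫ a, f (a' + γ * a) ∂(ProbabilityTheory.cauchyMeasure 0 1) =
          w1 a' / (1 - w1 a' * s) := by
        rw [hw1]
        simp only
        rw [← h2]
        refine integral_congr_ae (Eventually.of_forall fun a => ?_)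
        have h4 : cayx x (a' + γ * a) = cayx (x + a') (γ * a) := by
          unfold cayx
          push_cast
          ring_nf
        simp only [hf]
        rw [h4]
      rw [h3] at h1
      exact h1
    have hJm : Measurable (fun a' : ℝ => w1 a' / (1 - w1 a' * s)) := by fun_prop
    have hJi : Integrable (fun a' : ℝ => w1 a' / (1 - w1 a' * s)) ρ' := by
      refine Integrable.of_bound hJm.aestronglyMeasurable (1 / η) ?_
      filter_upwards [hw1b] with a ha
      exact frac_le hη0 (ha.trans hq01.le) hs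
    have hIm : StronglyMeasurable (fun a' : ℝ => ∫ a, f (a' + a) ∂(lev ψ R)) := by
      have h1 : StronglyMeasurable (Function.uncurry fun a' a : ℝ => f (a' + a)) :=
        (hfm.comp (measurable_fst.add measurable_snd)).stronglyMeasurable
      exact h1.integral_prod_right
    have hIi : Integrable (fun a' : ℝ => ∫ a, f (a' + a) ∂(lev ψ R)) ρ' := by
      refine Integrable.of_bound hIm.aestronglyMeasurable (1 / η) (Eventually.of_forall fun a' => ?_)
      have := norm_integral_le_of_norm_le_const (μ := lev ψ R) (f := fun a => f (a' + a))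
        (C := 1 / η) (Eventually.of_forall fun a => hfb _)
      simpa using this
    have hdiff : ‖Bs ((lev ψ R).conv ρ') (cayx x) s - Bs ρ' w1 s‖ ≤ 2 * τ * (1 / η) := by
      rw [hBconv]
      unfold Bs
      rw [← integral_sub hIi hJi]
      have := norm_integral_le_of_norm_le_const (μ := ρ')
        (f := fun a' => (∫ a, f (a' + a) ∂(lev ψ R)) - w1 a' / (1 - w1 a' * s))
        (C := 2 * τ * (1 / η)) (Eventually.of_forall hinner)
      simpa using this
    have hfin := comp_U hs1.le hB1 hC1 hB2 hC2 hq01.le hdiff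
    unfold Us
    refine hfin.trans ?_
    have h8 : 4 * (2 * τ * (1 / η)) = (1 - q0) / 2 := by
      rw [hτ]
      field_simp
      ring
    rw [h8, hq]
    linarith

end

end Pool.Agent.W864.WA
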